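import Pool.Agent.H752.KM.Stubs
import Pool.Agent.H620R2.Gauge.S

/-! K10a: the martingale (helper55) -/

set_option autoImplicit false

namespace Pool.Agent.H752.KM

open Pool.Agent.NPC Pool.Agent.H620R2.Gauge MeasureTheory Finset

namespace K10a

theorem str_pow (n : ℕ) : str (2 ^ n - 1) = List.replicate n false := by
  have h : sval (List.replicate n false) = 2 ^ n := by
    induction n with
    | zero => rfl
    | succ n ih => rw [List.replicate_succ', sval_append, ih, pow_succ]; simp; ring
  have h2 := str_idx (List.replicate n false)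
  rwa [idx_eq, h] at h2

theorem rk_eq (T : Set ℕ) [DecidablePred (· ∈ T)] (n : ℕ) : rk T n = Nat.count (· ∈ T) n := by
  unfold rk
  rw [Nat.count_eq_card_filter_range, ← Set.ncard_coe_finset]
  congr 1
  ext j
  simp [and_comm]

theorem rk_le (T : Set ℕ) (n : ℕ) : rk T n ≤ n := by
  classical
  rw [rk_eq]
  exact Nat.count_le _

theorem lab_le (T : Set ℕ) (n : ℕ) : lab T n ≤ n :=
  (Nat.unpair_left_le _).trans (rk_le T n)

theorem lab_inf (T : Set ℕ) (hT : T.Infinite) (i : ℕ) : {n | n ∈ T ∧ lab T n = i}.Infinite := by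
  classical
  have hinf : (Set.ofPred (· ∈ T)).Infinite := hT
  refine Set.infinite_of_injective_forall_mem (f := fun j : ℕ => Nat.nth (· ∈ T) (Nat.pair i j))
    ?_ ?_
  · intro j j' h
    have h1 := Nat.nth_injective hinf h
    have h2 := congrArg Nat.unpair h1
    simpa using h2
  · intro j
    refine ⟨Nat.nth_mem_of_infinite hinf _, ?_⟩
    unfold lab
    rw [rk_eq, Nat.count_nth_of_infinite hinf, Nat.unpair_pair]

theorem fac_append (T : Set ℕ) (A : Oracle) (w : List Bool) (b : Bool) (n i : ℕ)
    (h : ¬ (n ∈ T ∧ 2 ^ n = w.length + 1 ∧ lab T n = i)) :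
    fac T A (w ++ [b]) n i = fac T A w n i := by
  unfold fac
  by_cases h1 : n ∈ T ∧ 2 ^ n ≤ w.length
  · have h2 : n ∈ T ∧ 2 ^ n ≤ (w ++ [b]).length := ⟨h1.1, by simp; omega⟩
    rw [if_pos h1, if_pos h2]
    have h3 : 2 ^ n - 1 < w.length := by
      have := Nat.one_le_two_pow (n := n)
      omega
    have h4 : (w ++ [b]).getD (2 ^ n - 1) false = w.getD (2 ^ n - 1) false := by
      rw [List.getD_append _ _ _ _ h3]
    rw [h4]
  · rw [if_neg h1]
    by_cases h2 : n ∈ T ∧ 2 ^ n ≤ (w ++ [b]).length
    · rw [if_pos h2]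
      have h3 : 2 ^ n = w.length + 1 := by
        have h4 := h2.2
        simp only [List.length_append, List.length_singleton] at h4
        have h5 : ¬ 2 ^ n ≤ w.length := fun h6 => h1 ⟨h2.1, h6⟩
        omega
      rw [if_neg (fun h6 => h ⟨h2.1, h3, h6⟩)]
    · rw [if_neg h2]

theorem fac_new (T : Set ℕ) (A : Oracle) (w : List Bool) (b : Bool) (n i : ℕ)
    (h : n ∈ T ∧ 2 ^ n = w.length + 1 ∧ lab T n = i) :
    fac T A (w ++ [b]) n i = if b = A (uu n) then 3 else 1 := by
  unfold fac
  have h2 : n ∈ T ∧ 2 ^ n ≤ (w ++ [b]).length := ⟨h.1, by simp; omega⟩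
  rw [if_pos h2, if_pos h.2.2]
  have h3 : (w ++ [b]).getD (2 ^ n - 1) false = b := by
    rw [h.2.1]
    simp
  rw [h3]

theorem fac_old (T : Set ℕ) (A : Oracle) (w : List Bool) (n i : ℕ)
    (h : w.length < 2 ^ n) : fac T A w n i = 2 := by
  unfold fac
  rw [if_neg (fun h1 => absurd h1.2 (by omega))]

/-- the martingale with the label `i` -/
noncomputable def mi (T : Set ℕ) (A : Oracle) (w : List Bool) (i : ℕ) : ℝ :=
  ∏ n ∈ range w.length, (fac T A w n i : ℝ) / 2

theorem mi_succ (T : Set ℕ) (A : Oracle) (w : List Bool) (i : ℕ) :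
    mi T A w i = ∏ n ∈ range (w.length + 1), (fac T A w n i : ℝ) / 2 := by
  rw [prod_range_succ, fac_old T A w w.length i Nat.lt_two_pow_self]
  simp [mi]

theorem mi_len (T : Set ℕ) (A : Oracle) (w : List Bool) (i : ℕ) (h : w.length ≤ i) :
    mi T A w i = 1 := by
  unfold mi
  apply prod_eq_one
  intro n hn
  rw [mem_range] at hn
  have h1 : fac T A w n i = 2 := by
    unfold fac
    have h2 : lab T n ≠ i := by
      have := lab_le T n
      omega
    simp [h2]
  rw [h1]
  norm_num

theorem mi_sum (T : Set ℕ) (A : Oracle) (w : List Bool) (i : ℕ) :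
    mi T A (w ++ [false]) i + mi T A (w ++ [true]) i = 2 * mi T A w i := by
  classical
  by_cases h : ∃ n, n ∈ T ∧ 2 ^ n = w.length + 1 ∧ lab T n = i
  · obtain ⟨n, hn⟩ := h
    have hmem : n ∈ range (w.length + 1) := by
      rw [mem_range, ← hn.2.1]
      exact Nat.lt_two_pow_self
    have key : ∀ b, mi T A (w ++ [b]) i =
        ((if b = A (uu n) then 3 else 1 : ℕ) : ℝ) / 2 * mi T A w i := by
      intro b
      rw [mi_succ T A w i, ← mul_prod_erase _ _ hmem]
      unfold mi
      have h1 : (w ++ [b]).length = w.length + 1 := by simp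
      rw [h1, ← mul_prod_erase _ _ hmem, fac_new T A w b n i hn,
        fac_old T A w n i (by omega)]
      have h2 : ∏ x ∈ (range (w.length + 1)).erase n, (fac T A (w ++ [b]) x i : ℝ) / 2 =
          ∏ x ∈ (range (w.length + 1)).erase n, (fac T A w x i : ℝ) / 2 := by
        apply prod_congr rfl
        intro x hx
        rw [fac_append T A w b x i]
        rintro ⟨h3, h4, h5⟩
        apply (mem_erase.1 hx).1
        apply Nat.pow_right_injective (le_refl 2)
        simp only
        omega
      rw [h2]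
      norm_num
    rw [key, key]
    cases A (uu n)
    · norm_num; ring
    · norm_num; ring
  · push Not at h
    have key : ∀ b, mi T A (w ++ [b]) i = mi T A w i := by
      intro b
      rw [mi_succ T A w i]
      unfold mi
      have h1 : (w ++ [b]).length = w.length + 1 := by simp
      rw [h1]
      apply prod_congr rfl
      intro x hx
      rw [fac_append T A w b x i]
      rintro ⟨h3, h4, h5⟩
      exact h x h3 h4 h5
    rw [key, key]
    ring

theorem mi_nonneg (T : Set ℕ) (A : Oracle) (w : List Bool) (i : ℕ) : 0 ≤ mi T A w i :=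
  prod_nonneg fun n _ => by positivity

theorem mart_eq (T : Set ℕ) (A : Oracle) (w : List Bool) :
    mart T A w = 2⁻¹ ^ w.length + ∑ i ∈ range w.length, 2⁻¹ ^ (i + 1) * mi T A w i := rfl

theorem mart_succ (T : Set ℕ) (A : Oracle) (w : List Bool) :
    mart T A w = 2⁻¹ ^ (w.length + 1) +
      ∑ i ∈ range (w.length + 1), 2⁻¹ ^ (i + 1) * mi T A w i := by
  rw [mart_eq, sum_range_succ, mi_len T A w w.length le_rfl, mul_one, pow_succ]
  ring

theorem wd_prefix (L : Set (List Bool)) (l : ℕ) : Prefix (Wd (fun j => str j ∈ L) l) L := by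
  intro i h
  simp [Wd]

end K10a

open K10a in
theorem t_mart : St_mart := by
  classical
  intro T A hT
  refine ⟨by simp [mart], ?_, ?_, ?_⟩
  · intro w
    rw [mart_eq]
    exact add_nonneg (by positivity)
      (sum_nonneg fun i _ => mul_nonneg (by positivity) (mi_nonneg T A w i))
  · intro w
    have h1 : ∀ b, (w ++ [b]).length = w.length + 1 := by simp
    rw [mart_succ T A w, mart_eq, mart_eq, h1, h1]
    have h2 : ∑ i ∈ range (w.length + 1), (2⁻¹ : ℝ) ^ (i + 1) * mi T A (w ++ [false]) i +
        ∑ i ∈ range (w.length + 1), (2⁻¹ : ℝ) ^ (i + 1) * mi T A (w ++ [true]) i =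
        2 * ∑ i ∈ range (w.length + 1), (2⁻¹ : ℝ) ^ (i + 1) * mi T A w i := by
      rw [← sum_add_distrib, mul_sum]
      apply sum_congr rfl
      intro i _
      rw [← mul_add, mi_sum]
      ring
    linarith
  · rintro L ⟨i, n₀, hL⟩ R
    obtain ⟨K, hK⟩ : ∃ K : ℕ, R * 2 ^ (i + 1) * 2 ^ n₀ ≤ (3 / 2 : ℝ) ^ K :=
      pow_unbounded_of_one_lt _ (by norm_num) |>.imp fun _ h => h.le
    have hS : {n | (n ∈ T ∧ lab T n = i) ∧ n₀ ≤ n}.Infinite := by
      intro hfin
      apply lab_inf T hT i
      refine (hfin.union (Set.finite_Iio n₀)).subset ?_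
      intro n hn
      by_cases h : n₀ ≤ n
      · exact Or.inl ⟨hn, h⟩
      · exact Or.inr (by simpa using h)
    obtain ⟨F, hF, hFc⟩ := hS.exists_subset_card_eq K
    set l := F.sup (fun n => 2 ^ n) + i + 1 with hl
    have hFl : ∀ n ∈ F, 2 ^ n ≤ l := by
      intro n hn
      have h1 : 2 ^ n ≤ F.sup (fun n => 2 ^ n) := Finset.le_sup (f := fun n => 2 ^ n) hn
      omega
    set w := Wd (fun j => str j ∈ L) l with hw
    have hwl : w.length = l := by simp [hw, Wd]
    refine ⟨w, wd_prefix L l, ?_⟩
    have hget : ∀ n, 2 ^ n ≤ l → w.getD (2 ^ n - 1) false = decide (List.replicate n false ∈ L) := by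
      intro n hn
      have h1 : 2 ^ n - 1 < l := by
        have := Nat.one_le_two_pow (n := n)
        omega
      rw [← str_pow n, List.getD_eq_getElem _ _ (by rw [hwl]; exact h1)]
      simp [hw, Wd]
    have hfac1 : ∀ n, n₀ ≤ n → (2 ≤ fac T A w n i) ∧ (n ∈ F → fac T A w n i = 3) := by
      intro n hn
      by_cases h1 : n ∈ T ∧ 2 ^ n ≤ w.length
      · by_cases h2 : lab T n = i
        · have h3 : w.getD (2 ^ n - 1) false = A (uu n) := by
            rw [hget n (by rw [← hwl]; exact h1.2)]
            have := hL n hn h1.1 h2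
            rw [Bool.eq_iff_iff, decide_eq_true_iff]
            exact this
          have h4 : fac T A w n i = 3 := by
            unfold fac
            rw [if_pos h1, if_pos h2, if_pos h3]
          exact ⟨by omega, fun _ => h4⟩
        · have h4 : fac T A w n i = 2 := by
            unfold fac
            rw [if_pos h1, if_neg h2]
          exact ⟨h4.ge, fun h => absurd (hF h).1.2 h2⟩
      · have h4 : fac T A w n i = 2 := by
          unfold fac
          rw [if_neg h1]
        refine ⟨h4.ge, fun h => absurd ⟨(hF h).1.1, ?_⟩ h1⟩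
        rw [hwl]
        exact hFl n h
    have hfac0 : ∀ n, 1 ≤ fac T A w n i := by
      intro n
      unfold fac
      split_ifs <;> omega
    have hFr : F ⊆ range l := by
      intro n hn
      rw [mem_range]
      exact lt_of_lt_of_le Nat.lt_two_pow_self (hFl n hn)
    have hprod : (1 / 2 : ℝ) ^ n₀ * (3 / 2) ^ K ≤ mi T A w i := by
      unfold mi
      rw [hwl]
      have h1 : ∏ n ∈ range l, ((if n < n₀ then (1 / 2 : ℝ) else 1) * (if n ∈ F then 3 / 2 else 1)) ≤
          ∏ n ∈ range l, (fac T A w n i : ℝ) / 2 := by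
        apply prod_le_prod
        · intro n _
          positivity
        · intro n _
          by_cases h2 : n < n₀
          · have h3 : n ∉ F := fun h => absurd (hF h).2 (by omega)
            rw [if_pos h2, if_neg h3]
            have h4 : (1 : ℝ) ≤ fac T A w n i := by exact_mod_cast hfac0 n
            linarith
          · rw [if_neg h2]
            obtain ⟨h4, h5⟩ := hfac1 n (by omega)
            by_cases h3 : n ∈ F
            · rw [if_pos h3, h5 h3]
              norm_num
            · rw [if_neg h3]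
              have h6 : (2 : ℝ) ≤ fac T A w n i := by exact_mod_cast h4
              linarith
      refine le_trans ?_ h1
      rw [prod_mul_distrib]
      have h2 : ∏ n ∈ range l, (if n ∈ F then (3 / 2 : ℝ) else 1) = (3 / 2) ^ K := by
        rw [prod_ite_mem, inter_eq_right.2 hFr, prod_const, hFc]
      have h3 : (1 / 2 : ℝ) ^ n₀ ≤ ∏ n ∈ range l, (if n < n₀ then (1 / 2 : ℝ) else 1) := by
        rw [prod_ite, prod_const, prod_const_one, mul_one]
        apply pow_le_pow_of_le_one (by norm_num) (by norm_num)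
        have : (range l).filter (· < n₀) ⊆ range n₀ := by
          intro n hn
          rw [mem_range]
          exact (mem_filter.1 hn).2
        simpa using card_le_card this
      rw [h2]
      exact mul_le_mul_of_nonneg_right h3 (by positivity)
    have h5 : (2⁻¹ : ℝ) ^ (i + 1) * mi T A w i ≤ mart T A w := by
      rw [mart_eq]
      have h6 : (2⁻¹ : ℝ) ^ (i + 1) * mi T A w i ≤
          ∑ i ∈ range w.length, 2⁻¹ ^ (i + 1) * mi T A w i :=
        single_le_sum (f := fun i => (2⁻¹ : ℝ) ^ (i + 1) * mi T A w i)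
          (fun j _ => mul_nonneg (by positivity) (mi_nonneg T A w j))
          (mem_range.2 (by rw [hwl]; omega))
      have h7 : (0 : ℝ) ≤ 2⁻¹ ^ w.length := by positivity
      linarith
    refine le_trans ?_ h5
    have h8 : R ≤ (2⁻¹ : ℝ) ^ (i + 1) * ((1 / 2) ^ n₀ * (3 / 2) ^ K) := by
      have h9 : (2⁻¹ : ℝ) ^ (i + 1) * ((1 / 2) ^ n₀ * (3 / 2) ^ K) =
          (3 / 2) ^ K / (2 ^ (i + 1) * 2 ^ n₀) := by
        rw [inv_pow, one_div, inv_pow]
        field_simp
      rw [h9, le_div_iff₀ (by positivity), ← mul_assoc]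
      exact hK
    exact h8.trans (mul_le_mul_of_nonneg_left hprod (by positivity))

end Pool.Agent.H752.KM
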